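import Pool.Agent.R431.B.Fin
import Pool.Agent.K4H13.BK.Tensor

/-!
# The order of vanishing formula at `p = 2` for `h¹(E)(1) ⊗ N`, `E : y² + y = x³`, and all the Artin
# motives `N` of extensions of 2-power degree of `ℚ` which are not abelian

`E` is the elliptic curve `y² + y = x³` over `ℚ`, of conductor `27`, `F` is the field of third roots of
unity, and `K` is a Galois extension of `ℚ` which contains `F`, of degree `2 ^ n` over `F`, with an
Artin map of modulus `m` over `F`, where `2` is not a cube modulo any prime number that divides `m`.  By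
class field theory these are all the fields `K` of 2-power degree which are Galois over `ℚ`, abelian over
`F` and unramified over `F` outside of the primes `l = 1` modulo `3` for which `2` is not a cube modulo
`l`.  In general the Galois group of `K / ℚ` is not abelian; it is a dihedral group, of order `2 ^ (n + 1)`,
if `K` is cyclic over `F` and contained in a ring class field.

Let `N` be any Artin motive over `ℚ` with rational coefficients, of any rank `g`, that is trivialized by
`K`.  It is given by a lattice `ℤ^g` with an action `ρ` of the Galois group of `K / ℚ` (every rational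
representation of a finite group contains a stable lattice); for instance the motive of any number
field contained in `K`, or any conjugation-stable sum of the irreducible dihedral representations.  The
motive `M = h¹(E)(1) ⊗ N = h¹(A)(1)`, `A = E ⊗ ℤ^g` (an abelian variety of dimension `g`), is polarized: by
the Weil pairing and a positive definite form on `ℤ^g` that is invariant under the Galois group.  The
theorem says that for each of these motives `M` the formula of the problem holds for `p = 2`, with both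
sides equal to zero:

* all the Euler factors, also at the bad primes, have rational coefficients; the Euler product
  `L(s, M) = L(A, s + 1)` converges for `Re s > 1/2` and continues to a meromorphic function on `ℂ`,
  analytic and not zero at `s = 0`;
* `H⁰(ℚ, V_2 A) = 0` and the Bloch–Kato Selmer group `H¹_f(ℚ, V_2 A)` is zero, `V_2 A = V_2 E ⊗ N`.

The Selmer group is that of the continuous cocycles with values in `V_2 A` whose restriction to the
completion at every place is in the image of the Kummer map (`Pool.Agent.K4H13.BK`); this is the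
condition of Bloch and Kato.

Nothing is assumed on `E`, on `L` or on a Selmer group over `K`.  By the lemma of Shapiro the theorem
contains the formula for `h¹(E)(1) ⊗ N` over every number field `k` contained in such a field `K`, for
all the Artin motives `N` over `k` trivialized by `K`.

The central values and the Tate-Shafarevich group are from the library of helper431 (file
`EisensteinTensor` of problem `MP_dfae13_nt`).
-/

set_option autoImplicit false

namespace Pool.Agent.Results.MP_ec4e4b_nt.NonabelianArtinTwists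

open NumberField IsDedekindDomain WeierstrassCurve

open scoped Classical

open Pool.Agent.TH841.SH.D (Gal)

open Pool.Agent.Y696 (IsArtin)

open Pool.Agent.K4H13.BK (HZeroTrivial HOneFTrivial)

/-- The curve `E : y² + y = x³`. -/
def curve : WeierstrassCurve ℤ := ⟨0, 0, 1, 0, 0⟩

/-- The number of the affine points `(x, y)` over the ring `R`. -/
noncomputable def pts (W : WeierstrassCurve ℤ) (R : Type) [CommRing R] : ℕ :=
  Nat.card {P : R × R // (W.map (Int.castRingHom R)).toAffine.Equation P.1 P.2}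

section lattice

variable {K : Type} [Field K] [NumberField K] {g : ℕ} (ρ : (K ≃ₐ[ℚ] K) →* GL (Fin g) ℤ)

/-- The Frobenius automorphisms at the place `v`: the automorphisms `σ` of `K` with
`σ x = x ^ p` modulo `v` for all the integers `x` of `K`, where `p` is the prime number below `v`.
They are a coset of the inertia group of `v`. -/
def FrobSet (v : HeightOneSpectrum (𝓞 K)) : Set (K ≃ₐ[ℚ] K) :=
  {σ | IsArithFrobAt ℤ σ v.asIdeal}

/-- The action of the Frobenius automorphism at `v` on the vectors fixed by the inertia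
group of `v`, extended by zero: the average of the matrices `ρ(σ)` over all the Frobenius
automorphisms `σ` at `v`.  It has rational entries. -/
noncomputable def frob (v : HeightOneSpectrum (𝓞 K)) : Matrix (Fin g) (Fin g) ℚ :=
  (Nat.card (FrobSet v) : ℚ)⁻¹ •
    ∑ᶠ σ : FrobSet v, (ρ σ.1 : Matrix (Fin g) (Fin g) ℤ).map (Int.cast : ℤ → ℚ)

/-- The polynomial `P_p(T)` of the motive `M = h¹(E)(1) ⊗ N` at the prime number `p`, with rational
coefficients, where `v` is a place of `K` above `p`: `det (1 - a_p Φ (T / p) + p Φ² (T / p)²)` for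
`Φ = frob ρ v`, without the last term if `p` divides the discriminant of `E` (the curve is
`y² + y = x³`, with additive reduction at `3`, where `a_3 = 0` and `P_3 = 1`); `a_p = p - pts` as `pts` does
not count the point at infinity. -/
noncomputable def P (W : WeierstrassCurve ℤ) (v : HeightOneSpectrum (𝓞 K)) (p : ℕ) :
    Polynomial ℚ :=
  (1 - (Polynomial.C ((((p : ℤ) - pts W (ZMod p) : ℤ) : ℚ) / p) * Polynomial.X) •
      (frob ρ v).map Polynomial.C +
    ((if (p : ℤ) ∣ W.Δ then 0 else Polynomial.C (1 / (p : ℚ))) * Polynomial.X ^ 2) •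
      (frob ρ v).map Polynomial.C ^ 2).det

/-- The form with the matrix `B` is symmetric, positive definite and invariant under `ρ`.  With the Weil
pairing it gives a polarization of `h¹(E)(1) ⊗ N`. -/
def IsInvariantForm (B : Matrix (Fin g) (Fin g) ℤ) : Prop :=
  B.transpose = B ∧ (∀ x : Fin g → ℤ, x ≠ 0 → 0 < dotProduct x (B.mulVec x)) ∧
    ∀ σ, (ρ σ : Matrix (Fin g) (Fin g) ℤ).transpose * B * (ρ σ : Matrix (Fin g) (Fin g) ℤ) = B

/-- The order of vanishing formula for the motive `M = h¹(E)(1) ⊗ N` over `ℚ` and the prime `2`, with both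
sides zero.  Here `r` is the restriction of the automorphisms to `K`, and `ρ ∘ r` the action of the Galois
group of `ℚ` on the lattice: there is an invariant positive definite form; the Euler product
`L(s, M) = ∏ P_p(p^(-s))⁻¹` over all the primes continues to a meromorphic function on `ℂ`, analytic
at `0`, of order `0` there; `H⁰(ℚ, V_2)` and `H¹_f(ℚ, V_2)` are zero. -/
structure OrderFormula (r : Gal ℚ →* (K ≃ₐ[ℚ] K)) : Prop where
  form : ∃ B : Matrix (Fin g) (Fin g) ℤ, IsInvariantForm ρ B
  order : ∃ L : ℂ → ℂ, MeromorphicOn L Set.univ ∧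
    (∀ V : Nat.Primes → HeightOneSpectrum (𝓞 K),
      (∀ p : Nat.Primes, ((p : ℕ) : 𝓞 K) ∈ (V p).asIdeal) → ∀ s : ℂ, 1 / 2 < s.re →
      HasProd (fun p : Nat.Primes =>
        ((P ρ curve (V p) p).aeval (((p : ℕ) : ℂ) ^ (-s)))⁻¹) (L s)) ∧
    AnalyticAt ℂ L 0 ∧ analyticOrderAt L 0 = 0
  h0 : HZeroTrivial curve (ρ.comp r) 2
  h1 : HOneFTrivial curve (ρ.comp r) 2

end lattice

/-! ### Proof -/

theorem exists_form {G : Type} [Group G] [Finite G] {g : ℕ} (ρ : G →* GL (Fin g) ℤ) :
    ∃ B : Matrix (Fin g) (Fin g) ℤ, B.transpose = B ∧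
      (∀ x : Fin g → ℤ, x ≠ 0 → 0 < dotProduct x (B.mulVec x)) ∧
      ∀ σ, (ρ σ : Matrix (Fin g) (Fin g) ℤ).transpose * B * (ρ σ : Matrix (Fin g) (Fin g) ℤ) = B := by
  have := Fintype.ofFinite G
  refine ⟨∑ σ : G, (ρ σ : Matrix (Fin g) (Fin g) ℤ).transpose * (ρ σ : Matrix (Fin g) (Fin g) ℤ),
    ?_, ?_, ?_⟩
  · rw [Matrix.transpose_sum]
    refine Finset.sum_congr rfl fun σ _ => ?_
    rw [Matrix.transpose_mul, Matrix.transpose_transpose]
  · intro x hx
    have h1 : ∀ A : Matrix (Fin g) (Fin g) ℤ, dotProduct x ((A.transpose * A).mulVec x) =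
        dotProduct (A.mulVec x) (A.mulVec x) := by
      intro A
      rw [← Matrix.mulVec_mulVec, Matrix.dotProduct_mulVec, Matrix.vecMul_transpose]
    rw [Matrix.sum_mulVec, dotProduct_sum]
    refine Finset.sum_pos' (fun σ _ => ?_) ⟨1, Finset.mem_univ _, ?_⟩
    · rw [h1]
      exact Finset.sum_nonneg fun i _ => mul_self_nonneg _
    · rw [h1, map_one, Units.val_one, Matrix.one_mulVec]
      obtain ⟨i, hi⟩ : ∃ i, x i ≠ 0 := Function.ne_iff.1 hx
      refine Finset.sum_pos' (fun i _ => mul_self_nonneg _) ⟨i, Finset.mem_univ _, ?_⟩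
      exact mul_self_pos.2 hi
  · intro τ
    rw [Finset.mul_sum, Finset.sum_mul]
    refine Fintype.sum_equiv (Equiv.mulRight τ) _ _ fun σ => ?_
    rw [Equiv.coe_mulRight, map_mul, Units.val_mul, Matrix.transpose_mul]
    simp only [Matrix.mul_assoc]

section euler

variable {K : Type} [Field K] [NumberField K] {g : ℕ} (ρ : (K ≃ₐ[ℚ] K) →* GL (Fin g) ℤ)

theorem frob_map (v : HeightOneSpectrum (𝓞 K)) :
    (frob ρ v).map (algebraMap ℚ ℂ) = Pool.Agent.R431.B.frobM ρ v := by
  show (frob ρ v).map (algebraMap ℚ ℂ) = (Nat.card (FrobSet v) : ℂ)⁻¹ •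
    ∑ᶠ σ : FrobSet v, (ρ σ.1 : Matrix (Fin g) (Fin g) ℤ).map (Int.cast : ℤ → ℂ)
  unfold frob
  have h1 : ((∑ᶠ σ : FrobSet v, (ρ σ.1 : Matrix (Fin g) (Fin g) ℤ).map (Int.cast : ℤ → ℚ))).map
      (algebraMap ℚ ℂ) =
      ∑ᶠ σ : FrobSet v, (ρ σ.1 : Matrix (Fin g) (Fin g) ℤ).map (Int.cast : ℤ → ℂ) := by
    have h2 := AddMonoidHom.map_finsum (f := fun σ : FrobSet v =>
      (ρ σ.1 : Matrix (Fin g) (Fin g) ℤ).map (Int.cast : ℤ → ℚ))
      ((algebraMap ℚ ℂ).mapMatrix (m := Fin g)).toAddMonoidHom (Set.toFinite _)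
    refine h2.trans (finsum_congr fun σ => ?_)
    ext i j
    simp
  ext i j
  have h3 := congrFun (congrFun h1 i) j
  simp only [Matrix.map_apply, Matrix.smul_apply, smul_eq_mul, map_mul, map_inv₀, map_natCast] at h3 ⊢
  rw [h3]

theorem map_smul_matrix (t : ℂ) (c : Polynomial ℚ) (A : Matrix (Fin g) (Fin g) (Polynomial ℚ)) :
    (Polynomial.aeval t : Polynomial ℚ →ₐ[ℚ] ℂ).mapMatrix (c • A) =
      Polynomial.aeval t c • (Polynomial.aeval t : Polynomial ℚ →ₐ[ℚ] ℂ).mapMatrix A := by
  ext i j
  simp [Matrix.smul_apply]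

theorem euler_eq (W : WeierstrassCurve ℤ) (v : HeightOneSpectrum (𝓞 K)) (p : ℕ) (hp : p ≠ 0)
    (s : ℂ) : Pool.Agent.R431.B.euler ρ W v (s + 1) p =
      ((P ρ W v p).aeval ((p : ℂ) ^ (-s)))⁻¹ := by
  have hp0 : (p : ℂ) ≠ 0 := by exact_mod_cast hp
  have hA : (Polynomial.aeval ((p : ℂ) ^ (-s)) : Polynomial ℚ →ₐ[ℚ] ℂ).mapMatrix
      ((frob ρ v).map Polynomial.C) = Pool.Agent.R431.B.frobM ρ v := by
    rw [← frob_map]
    ext i j
    simp
  have h1 : (p : ℂ) ^ (-(s + 1)) = (p : ℂ)⁻¹ * (p : ℂ) ^ (-s) := by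
    rw [neg_add, Complex.cpow_add _ _ hp0, Complex.cpow_neg_one, mul_comm]
  have h2 : (p : ℂ) ^ (1 - 2 * (s + 1)) = (p : ℂ)⁻¹ * ((p : ℂ) ^ (-s)) ^ 2 := by
    rw [show 1 - 2 * (s + 1) = -1 + (2 : ℕ) * (-s) by push_cast; ring, Complex.cpow_add _ _ hp0,
      Complex.cpow_neg_one, Complex.cpow_nat_mul]
  show (1 - ((((p : ℤ) - pts W (ZMod p) : ℤ) : ℂ) * (p : ℂ) ^ (-(s + 1))) •
      Pool.Agent.R431.B.frobM ρ v + (if (p : ℤ) ∣ W.Δ then 0 else (p : ℂ) ^ (1 - 2 * (s + 1))) •
      Pool.Agent.R431.B.frobM ρ v ^ 2).det⁻¹ = _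
  unfold P
  rw [AlgHom.map_det, map_add, map_sub, map_one, map_smul_matrix, map_smul_matrix, map_pow, hA, h1,
    h2]
  congr 5
  · simp only [map_mul, Polynomial.aeval_C, Polynomial.aeval_X, eq_ratCast]
    push_cast
    ring
  · split_ifs with h
    · simp
    · simp only [map_mul, map_pow, Polynomial.aeval_C, Polynomial.aeval_X, eq_ratCast]
      push_cast
      ring

end euler

/-- **Main theorem.** Let `F` be the field of third roots of unity and let `K ⊇ F` be a Galois extension
of `ℚ`, of degree `2 ^ n` over `F`, with an Artin map `art` over `F` of modulus `m`, where `2` is not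
a cube modulo any prime number that divides `m`.  Let `ρ` be any action of the Galois group of `K / ℚ`
on `ℤ^g`, where `g` is arbitrary, and `N` the Artin motive over `ℚ` with the representation `ρ`.  Then
the formula of the problem holds for the polarized motive `M = h¹(E)(1) ⊗ N` over `ℚ`, `E : y² + y = x³`,
and `p = 2`, with both sides equal to zero: the Euler factors `P_p` have rational coefficients,
`L(s, M)` continues to a meromorphic function on `ℂ` which is analytic and not zero at `s = 0`,
`H⁰(ℚ, V_2) = 0` and `H¹_f(ℚ, V_2) = 0`. -/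
theorem result (F K : Type) [Field F] [NumberField F] [IsCyclotomicExtension {3} ℚ F] [Field K]
    [NumberField K] [Algebra F K] [IsGalois ℚ K] (n : ℕ) (hn : Module.finrank F K = 2 ^ n)
    (m : ℕ) (hm : ∀ p : ℕ, p.Prime → p ∣ m → ∀ x : ZMod p, x ^ 3 ≠ 2)
    (art : (𝓞 F ⧸ Ideal.span {(m : 𝓞 F)})ˣ →* Gal(K/F)) (hart : IsArtin (m : 𝓞 F) art)
    (g : ℕ) (ρ : (K ≃ₐ[ℚ] K) →* GL (Fin g) ℤ) (e : K →+* AlgebraicClosure ℚ)
    (r : Gal ℚ →* (K ≃ₐ[ℚ] K)) (hr : ∀ (τ : Gal ℚ) (x : K), τ (e x) = e (r τ x)) :
    OrderFormula ρ r := by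
  obtain ⟨⟨h1, -⟩, -, h3, h4⟩ := Pool.Agent.R431.B.main hn hm hart ρ e r hr
  obtain ⟨-, -, L, l1, l2, l3, l4, -⟩ := h4 _ _ rfl rfl
  have hfin : {P : Pool.Agent.K4H13.BK.PtA curve g (AlgebraicClosure ℚ) | ∀ σ : Gal ℚ,
      Pool.Agent.K4H13.BK.actA curve (ρ.comp r) σ P = P}.Finite := @Set.toFinite _ _ h1
  have hshift : AnalyticAt ℂ (fun s : ℂ => s + 1) 0 := by fun_prop
  have hL0 : AnalyticAt ℂ (fun s => L (s + 1)) 0 :=
    AnalyticAt.fun_comp (by simpa using l3) hshift
  refine ⟨exists_form ρ, ⟨fun s => L (s + 1), fun z _ => ?_, fun V hV s hs => ?_, hL0, ?_⟩,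
    Pool.Agent.K4H13.BK.hZero hfin, Pool.Agent.K4H13.BK.hOneF Nat.prime_two hfin 0
      fun f hf hloc hreal k hk => ?_⟩
  · have hz : AnalyticAt ℂ (fun s : ℂ => s + 1) z := by fun_prop
    exact MeromorphicAt.comp_analyticAt (g := fun s : ℂ => s + 1) (l1 (z + 1) (Set.mem_univ _)) hz
  · have h5 : (fun p : Nat.Primes => ((P ρ curve (V p) p).aeval (((p : ℕ) : ℂ) ^ (-s)))⁻¹) =
        fun p : Nat.Primes => Pool.Agent.R431.B.euler ρ curve (V p) (s + 1) p :=
      funext fun p => (euler_eq ρ curve (V p) p p.2.ne_zero s).symm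
    rw [h5]
    have h6 : (3 / 2 : ℝ) < (s + 1).re := by
      rw [Complex.add_re, Complex.one_re]
      linarith
    exact l2 V hV (s + 1) h6
  · refine hL0.analyticOrderAt_eq_zero.2 ?_
    simpa using l4
  · obtain ⟨P, hP⟩ := h3 f ⟨hf, hloc, hreal⟩ k ⟨0, fun σ => by
      rw [map_zero, sub_zero]
      exact hk σ⟩
    exact ⟨P, fun σ => by
      rw [pow_zero, one_smul]
      exact hP σ⟩

end Pool.Agent.Results.MP_ec4e4b_nt.NonabelianArtinTwists
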